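import Pool.Agent.H385R3.LN.Step

/-! Project LN: task WallStep (and KillStep, by the same assembly). -/

set_option autoImplicit false

namespace Pool.Agent.H385R3.LN

open Pool.Agent.H261R3.LN

theorem taskWallStep : TaskWallStep := by
  intro S _ p m q hK hW C
  obtain ⟨M, hM, h1⟩ := exists_slab p m q hK C
  obtain ⟨C2, hC2, h2⟩ := hW (4 * M)
  refine ⟨4 * M + 2 * C2, by positivity, fun f hx hu hb => ?_⟩
  obtain ⟨e, he⟩ := h1 f hx hu hb
  choose H hH hH1 using fun k => h2 (fun x u => cont e k x u) (cont_spec hM he k).1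
    (cont_spec hM he k).2.1 (cont_spec hM he k).2.2
  obtain ⟨g, hg, hg1⟩ := assemble hM hC2 he H hH
  refine ⟨g, hg, fun x u i k hik => ?_⟩
  rw [hg1]
  revert hik
  refine Fin.cases (fun hik => ?_) (fun i hik => ?_) i
  · refine (hH _).bd _ _ _ ⟨0, Or.inl ?_⟩
    rw [cns_zero, hik, Int.fract_intCast]
  · exact hH1 _ _ _ i k hik

theorem taskKillStep : TaskKillStep := by
  intro S _ p m q hK hW C
  obtain ⟨M, hM, h1⟩ := exists_slab p m q hK C
  obtain ⟨C2, hC2, h2⟩ := hW (4 * M)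
  refine ⟨4 * M + 2 * C2, by positivity, fun f hx hu hb => ?_⟩
  obtain ⟨e, he⟩ := h1 f hx hu hb
  choose H hH hH1 using fun k => h2 (fun x u => cont e k x u) (cont_spec hM he k).1
    (cont_spec hM he k).2.1 (cont_spec hM he k).2.2
  obtain ⟨g, hg, hg1⟩ := assemble hM hC2 he H hH
  exact ⟨g, hg, fun x u => by rw [hg1, hH1]⟩

end Pool.Agent.H385R3.LN
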