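import Pool.Agent.H261R3.LN.Stmts
import Pool.Agent.H531R3.LH.LineOf

/-! Project LN: the common part of the tasks KillStep and WallStep. -/

set_option autoImplicit false

namespace Pool.Agent.H385R3.LN

open Pool.Agent.H261R3.LH (Lip1 clip clip_nonneg)
open Pool.Agent.H531R3.LH (clip_le_one clip_zero clip_one clip_lip glue glue_floor)
open Pool.Agent.H261R3.LN

/-- adding a first coordinate -/
def cns {m : ℕ} (a : ℝ) (x : Fin m → ℝ) : Fin (m + 1) → ℝ := Fin.cons a x

/-- forgetting the first coordinate -/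
def tl {m : ℕ} (x : Fin (m + 1) → ℝ) : Fin m → ℝ := fun i => x i.succ

lemma cns_tl {m : ℕ} (x : Fin (m + 1) → ℝ) : cns (x 0) (tl x) = x := Fin.cons_self_tail x

lemma tl_cns {m : ℕ} (a : ℝ) (x : Fin m → ℝ) : tl (cns a x) = x := by
  funext i
  simp [tl, cns]

lemma cns_zero {m : ℕ} (a : ℝ) (x : Fin m → ℝ) : cns a x 0 = a := rfl

lemma cns_succ {m : ℕ} (a : ℝ) (x : Fin m → ℝ) (i : Fin m) : cns a x i.succ = x i := rfl

lemma dist_cns_le {m : ℕ} (a b : ℝ) (x y : Fin m → ℝ) :
    dist (cns a x) (cns b y) ≤ |a - b| + dist x y := by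
  rw [dist_pi_le_iff (by positivity)]
  intro i
  refine Fin.cases ?_ (fun i => ?_) i
  · rw [cns_zero, cns_zero, Real.dist_eq]
    have := dist_nonneg (x := x) (y := y)
    linarith
  · rw [cns_succ, cns_succ]
    have := dist_le_pi_dist x y i
    have := abs_nonneg (a - b)
    linarith

lemma dist_tl_le {m : ℕ} (x y : Fin (m + 1) → ℝ) : dist (tl x) (tl y) ≤ dist x y := by
  rw [dist_pi_le_iff dist_nonneg]
  intro i
  exact dist_le_pi_dist x y i.succ

/-- coordinatewise clipping -/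
noncomputable def cv {m : ℕ} (u : Fin m → ℝ) : Fin m → ℝ := fun i => clip (u i)

lemma dist_cv_le {m : ℕ} (u v : Fin m → ℝ) : dist (cv u) (cv v) ≤ dist u v := by
  rw [dist_pi_le_iff dist_nonneg]
  intro i
  refine le_trans ?_ (dist_le_pi_dist u v i)
  rw [Real.dist_eq, Real.dist_eq]
  exact clip_lip _ _

lemma cv_inCube {m : ℕ} (u : Fin m → ℝ) : InCube (cv u) := fun i =>
  ⟨clip_nonneg _, clip_le_one _⟩

lemma cv_bd {m : ℕ} {u : Fin m → ℝ} (h : Bd u) : Bd (cv u) := by
  obtain ⟨i, h | h⟩ := h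
  · exact ⟨i, Or.inl (by simp only [cv, h, clip_zero])⟩
  · exact ⟨i, Or.inr (by simp only [cv, h, clip_one])⟩

lemma clip_of_mem {x : ℝ} (h0 : 0 ≤ x) (h1 : x ≤ 1) : clip x = x := by
  unfold clip
  rw [min_eq_right h1, max_eq_right h0]

lemma cv_of_inCube {m : ℕ} {u : Fin m → ℝ} (h : InCube u) : cv u = u := by
  funext i
  exact clip_of_mem (h i).1 (h i).2

lemma cv_cv {m : ℕ} (u : Fin m → ℝ) : cv (cv u) = cv u := cv_of_inCube (cv_inCube u)

variable {S : Type} [MetricSpace S]

lemma LipN.mono {d : ℕ} {C C' : ℝ} {f : (Fin d → ℝ) → S} (h : LipN C f) (hC : C ≤ C') :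
    LipN C' f := fun x y => (h x y).trans (mul_le_mul_of_nonneg_right hC dist_nonneg)

lemma Lip1.mono {C C' : ℝ} {f : ℝ → S} (h : Lip1 C f) (hC : C ≤ C') : Lip1 C' f := fun x y =>
  (h x y).trans (mul_le_mul_of_nonneg_right hC (abs_nonneg _))

/-- The stretched slabs: `e k v x u` is the given map for `0 ≤ v ≤ 1` and the null-homotopy of its
restrictions to the walls `x 0 = k`, `x 0 = k + 1` for `v ≤ 0`, `v ≥ 1`. -/
structure Slab {m q : ℕ} (M : ℝ) (p : S) (f : (Fin (m + 1) → ℝ) → (Fin q → ℝ) → S)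
    (e : ℤ → ℝ → (Fin m → ℝ) → (Fin q → ℝ) → S) : Prop where
  lv : ∀ k x u, Lip1 M (fun v => e k v x u)
  lx : ∀ k v u, LipN M (fun x => e k v x u)
  lu : ∀ k v x, LipN M (fun u => e k v x u)
  bd : ∀ k v x u, Bd u → e k v x u = p
  mid : ∀ k v x u, 0 ≤ v → v ≤ 1 → InCube u → e k v x u = f (cns (k + v) x) u
  gl : ∀ k v x u, 0 ≤ v → e k (1 + v) x u = e (k + 1) (-v) x u
  lf : ∀ k x u, e k (-1) x u = p
  rt : ∀ k x u, e k 2 x u = p
  cl : ∀ k v x u, e k v x (cv u) = e k v x u

theorem exists_slab (p : S) (m q : ℕ) (hK : Kill S p m q) (C : ℝ) :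
    ∃ M : ℝ, 0 ≤ M ∧ ∀ f : (Fin (m + 1) → ℝ) → (Fin q → ℝ) → S,
      (∀ u, LipN C (fun x => f x u)) → (∀ x, LipN C (fun u => f x u)) →
      (∀ x u, Bd u → f x u = p) → ∃ e, Slab M p f e := by
  obtain ⟨C1, hC1, h1⟩ := hK C
  set M : ℝ := max (max C 0) C1 with hM
  have hM0 : 0 ≤ M := (le_max_right C 0).trans (le_max_left _ _)
  have hCM : C ≤ M := (le_max_left C 0).trans (le_max_left _ _)
  have hC1M : C1 ≤ M := le_max_right _ _
  refine ⟨M, hM0, fun f hx hu hb => ?_⟩
  have hcx : ∀ (a : ℝ) (x y : Fin m → ℝ), dist (cns a x) (cns a y) ≤ dist x y := by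
    intro a x y
    have := dist_cns_le a a x y
    simpa using this
  have hca : ∀ (a b : ℝ) (x : Fin m → ℝ), dist (cns a x) (cns b x) ≤ |a - b| := by
    intro a b x
    have := dist_cns_le a b x x
    simpa using this
  have hfx : ∀ (a : ℝ) u, LipN M (fun x => f (cns a x) u) := fun a u x y =>
    (LipN.mono (hx u) hCM _ _).trans (mul_le_mul_of_nonneg_left (hcx a x y) hM0)
  have hk : ∀ k : ℤ, ∃ g : ℝ → (Fin m → ℝ) → (Fin q → ℝ) → S,
      Hmt C1 p (fun x u => f (cns k x) u) g ∧ ∀ x u, g 1 x u = p := by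
    intro k
    refine h1 (fun x u => f (cns k x) u) ?_ (fun x => hu _) (fun x u h => hb _ _ h)
    intro u x y
    refine (hx u _ _).trans ?_
    rcases le_total 0 C with hC | hC
    · exact mul_le_mul_of_nonneg_left (hcx _ x y) hC
    · have h2 := hx u (cns k x) (cns k y)
      have h3 : dist (f (cns (k : ℝ) x) u) (f (cns (k : ℝ) y) u) = 0 := by
        apply le_antisymm _ dist_nonneg
        refine h2.trans ?_
        exact mul_nonpos_of_nonpos_of_nonneg hC dist_nonneg
      have h4 : dist (cns (k : ℝ) x) (cns (k : ℝ) y) = dist x y := by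
        apply le_antisymm (hcx _ _ _)
        have := dist_tl_le (cns (k : ℝ) x) (cns (k : ℝ) y)
        rwa [tl_cns, tl_cns] at this
      rw [h4]
  choose g hg hg1 using hk
  -- the clipped homotopies
  set Q : ℤ → ℝ → (Fin m → ℝ) → (Fin q → ℝ) → S := fun k v x u => g k (clip v) x (cv u) with hQ
  have hQv : ∀ k x u, Lip1 M (fun v => Q k v x u) := fun k x u v w =>
    (Lip1.mono ((hg k).lt x (cv u)) hC1M _ _).trans
      (mul_le_mul_of_nonneg_left (clip_lip v w) hM0)
  have hQx : ∀ k v u, LipN M (fun x => Q k v x u) := fun k v u =>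
    LipN.mono ((hg k).lx (clip v) (cv u)) hC1M
  have hQu : ∀ k v x, LipN M (fun u => Q k v x u) := fun k v x u w =>
    (LipN.mono ((hg k).lu (clip v) x) hC1M _ _).trans
      (mul_le_mul_of_nonneg_left (dist_cv_le u w) hM0)
  have hQb : ∀ k v x u, Bd u → Q k v x u = p := fun k v x u h => (hg k).bd _ _ _ (cv_bd h)
  have hQ0 : ∀ k x u, Q k 0 x u = f (cns k x) (cv u) := fun k x u => by
    simp only [hQ, clip_zero]
    exact (hg k).start x (cv u) (cv_inCube u)
  have hQ1 : ∀ k x u, Q k 1 x u = p := fun k x u => by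
    simp only [hQ, clip_one]
    exact hg1 k x (cv u)
  set e : ℤ → ℝ → (Fin m → ℝ) → (Fin q → ℝ) → S := fun k v x u => if v ≤ 0 then Q k (-v) x u else
    (if v ≤ 1 then f (cns (k + v) x) (cv u) else Q (k + 1) (v - 1) x u) with he
  have he_neg : ∀ k v x u, 0 ≤ v → e k (-v) x u = Q k v x u := by
    intro k v x u hv
    simp only [he]
    rw [if_pos (by linarith), neg_neg]
  have he_mid : ∀ (k : ℤ) (v : ℝ) x u, 0 ≤ v → v ≤ 1 → e k v x u = f (cns (k + v) x) (cv u) := by
    intro k v x u hv hv1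
    simp only [he]
    split_ifs with h1
    · have : v = 0 := le_antisymm h1 hv
      subst this
      rw [neg_zero, hQ0, add_zero]
    · rfl
  have he_pos : ∀ k v x u, 0 ≤ v → e k (1 + v) x u = Q (k + 1) v x u := by
    intro k v x u hv
    simp only [he]
    rw [if_neg (by linarith)]
    split_ifs with h1
    · have : v = 0 := by linarith
      subst this
      rw [hQ0]; push_cast; rw [add_zero]
    · rw [add_sub_cancel_left]
  refine ⟨e, ?_, ?_, ?_, ?_, ?_, ?_, ?_, ?_, ?_⟩
  · intro k x u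
    have g1 : Lip1 M (fun v : ℝ => if v ≤ 1 then f (cns (k + v) x) (cv u)
        else Q (k + 1) (v - 1) x u) := by
      refine glue 1 ?_ ?_ ?_
      · intro v w
        refine (LipN.mono (hx (cv u)) hCM _ _).trans ?_
        refine mul_le_mul_of_nonneg_left ?_ hM0
        refine (hca _ _ _).trans (le_of_eq ?_)
        congr 1; ring
      · intro v w
        refine (hQv (k + 1) x u _ _).trans (le_of_eq ?_)
        congr 2; ring
      · rw [sub_self, hQ0]; push_cast; rfl
    refine glue 0 ?_ g1 ?_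
    · intro v w
      refine (hQv k x u _ _).trans (le_of_eq ?_)
      rw [show -v - -w = -(v - w) by ring, abs_neg]
    · simp only [neg_zero, zero_le_one, if_true, add_zero]
      exact hQ0 k x u
  · intro k v u
    simp only [he]
    split_ifs
    · exact hQx _ _ _
    · exact hfx _ _
    · exact hQx _ _ _
  · intro k v x
    simp only [he]
    split_ifs
    · exact hQu _ _ _
    · intro u w
      exact (LipN.mono (hu _) hCM _ _).trans (mul_le_mul_of_nonneg_left (dist_cv_le u w) hM0)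
    · exact hQu _ _ _
  · intro k v x u h
    simp only [he]
    split_ifs
    · exact hQb _ _ _ _ h
    · exact hb _ _ (cv_bd h)
    · exact hQb _ _ _ _ h
  · intro k v x u h0 h1 hc
    rw [he_mid k v x u h0 h1, cv_of_inCube hc]
  · intro k v x u h0
    rw [he_pos k v x u h0, he_neg (k + 1) v x u h0]
  · intro k x u
    rw [he_neg k 1 x u zero_le_one, hQ1]
  · intro k x u
    rw [show (2 : ℝ) = 1 + 1 by norm_num, he_pos k 1 x u zero_le_one, hQ1]
  · intro k v x u
    simp only [he, hQ, cv_cv]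

/-- The content of a slab after the first stage. -/
noncomputable def cont {m q : ℕ} (e : ℤ → ℝ → (Fin m → ℝ) → (Fin q → ℝ) → S) (k : ℤ)
    (x : Fin m → ℝ) (w : Fin (q + 1) → ℝ) : S := e k (3 * clip (w 0) - 1) x (tl w)

theorem cont_spec {m q : ℕ} {M : ℝ} (hM : 0 ≤ M) {p : S}
    {f : (Fin (m + 1) → ℝ) → (Fin q → ℝ) → S}
    {e : ℤ → ℝ → (Fin m → ℝ) → (Fin q → ℝ) → S} (h : Slab M p f e) (k : ℤ) :
    (∀ u, LipN (4 * M) (fun x => cont e k x u)) ∧ (∀ x, LipN (4 * M) (fun u => cont e k x u)) ∧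
      (∀ x u, Bd u → cont e k x u = p) := by
  refine ⟨fun u => ?_, fun x u w => ?_, fun x w hw => ?_⟩
  · exact LipN.mono (h.lx k _ _) (by linarith)
  · have h1 := h.lv k x (tl u) (3 * clip (u 0) - 1) (3 * clip (w 0) - 1)
    have h2 := h.lu k (3 * clip (w 0) - 1) x (tl u) (tl w)
    have h3 := clip_lip (u 0) (w 0)
    have h4 : |u 0 - w 0| ≤ dist u w := by
      rw [← Real.dist_eq]; exact dist_le_pi_dist u w 0
    have h5 := dist_tl_le u w
    have h6 : |3 * clip (u 0) - 1 - (3 * clip (w 0) - 1)| ≤ 3 * dist u w := by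
      rw [show 3 * clip (u 0) - 1 - (3 * clip (w 0) - 1) = 3 * (clip (u 0) - clip (w 0)) by ring,
        abs_mul, abs_of_pos (by norm_num : (0 : ℝ) < 3)]
      linarith
    calc dist (cont e k x u) (cont e k x w)
        ≤ dist (e k (3 * clip (u 0) - 1) x (tl u)) (e k (3 * clip (w 0) - 1) x (tl u)) +
          dist (e k (3 * clip (w 0) - 1) x (tl u)) (e k (3 * clip (w 0) - 1) x (tl w)) :=
          dist_triangle _ _ _
      _ ≤ M * (3 * dist u w) + M * dist u w :=
          add_le_add (h1.trans (mul_le_mul_of_nonneg_left h6 hM))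
            (h2.trans (mul_le_mul_of_nonneg_left h5 hM))
      _ = 4 * M * dist u w := by ring
  · obtain ⟨i, hi⟩ := hw
    unfold cont
    revert hi
    refine Fin.cases ?_ (fun i => ?_) i
    · rintro (hi | hi)
      · rw [hi, clip_zero, show (3 : ℝ) * 0 - 1 = -1 by ring, h.lf]
      · rw [hi, clip_one, show (3 : ℝ) * 1 - 1 = 2 by ring, h.rt]
    · intro hi
      exact h.bd _ _ _ _ ⟨i, hi⟩

/-- Assembling the two stages. -/
theorem assemble {m q : ℕ} {M C2 : ℝ} (hM : 0 ≤ M) (hC2 : 0 ≤ C2) {p : S}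
    {f : (Fin (m + 1) → ℝ) → (Fin q → ℝ) → S}
    {e : ℤ → ℝ → (Fin m → ℝ) → (Fin q → ℝ) → S} (h : Slab M p f e)
    (H : ℤ → ℝ → (Fin m → ℝ) → (Fin (q + 1) → ℝ) → S)
    (hH : ∀ k, Hmt C2 p (fun x u => cont e k x u) (H k)) :
    ∃ g : ℝ → (Fin (m + 1) → ℝ) → (Fin q → ℝ) → S, Hmt (4 * M + 2 * C2) p f g ∧
      ∀ x u, g 1 x u = H ⌊x 0⌋ 1 (tl x) (cns (Int.fract (x 0)) (cv u)) := by
  set F : ℤ → ℝ → ℝ → (Fin m → ℝ) → (Fin q → ℝ) → S := fun k s t x u =>
    if t ≤ 1 / 2 then e k ((1 + 2 * clip (2 * t)) * s - clip (2 * t)) x u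
    else H k (clip (2 * t - 1)) x (cns s (cv u)) with hF
  have hcs : ∀ (s s' : ℝ) (u : Fin q → ℝ), dist (cns s (cv u)) (cns s' (cv u)) ≤ |s - s'| := by
    intro s s' u
    have := dist_cns_le s s' (cv u) (cv u)
    simpa using this
  have hcu : ∀ (s : ℝ) (u w : Fin q → ℝ), dist (cns s (cv u)) (cns s (cv w)) ≤ dist u w := by
    intro s u w
    have h1 := dist_cns_le s s (cv u) (cv w)
    have h2 := dist_cv_le u w
    rw [sub_self, abs_zero, zero_add] at h1
    exact h1.trans h2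
  have hFs : ∀ k t x u, Lip1 (3 * M + C2) (fun s => F k s t x u) := by
    intro k t x u a b
    simp only [hF]
    have c0 := clip_nonneg (2 * t)
    have c1 := clip_le_one (2 * t)
    split_ifs with h'
    · refine (h.lv k x u _ _).trans ?_
      rw [show (1 + 2 * clip (2 * t)) * a - clip (2 * t) - ((1 + 2 * clip (2 * t)) * b -
        clip (2 * t)) = (1 + 2 * clip (2 * t)) * (a - b) by ring, abs_mul,
        abs_of_nonneg (by linarith : 0 ≤ 1 + 2 * clip (2 * t))]
      calc M * ((1 + 2 * clip (2 * t)) * |a - b|) ≤ M * (3 * |a - b|) := by gcongr; linarith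
        _ ≤ (3 * M + C2) * |a - b| := by nlinarith [mul_nonneg hC2 (abs_nonneg (a - b))]
    · refine ((hH k).lu _ x _ _).trans ?_
      calc C2 * dist (cns a (cv u)) (cns b (cv u)) ≤ C2 * |a - b| :=
            mul_le_mul_of_nonneg_left (hcs a b u) hC2
        _ ≤ (3 * M + C2) * |a - b| := by nlinarith [mul_nonneg hM (abs_nonneg (a - b))]
  have hFx : ∀ k s t u, LipN (M + C2) (fun x => F k s t x u) := by
    intro k s t u
    simp only [hF]
    split_ifs
    · exact LipN.mono (h.lx _ _ _) (by linarith)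
    · exact LipN.mono ((hH k).lx _ _) (by linarith)
  have hFu : ∀ k s t x, LipN (M + C2) (fun u => F k s t x u) := by
    intro k s t x
    simp only [hF]
    split_ifs
    · exact LipN.mono (h.lu _ _ _) (by linarith)
    · intro u w
      refine ((hH k).lu _ x _ _).trans ?_
      calc C2 * dist (cns s (cv u)) (cns s (cv w)) ≤ C2 * dist u w :=
            mul_le_mul_of_nonneg_left (hcu s u w) hC2
        _ ≤ (M + C2) * dist u w := by nlinarith [mul_nonneg hM (dist_nonneg (x := u) (y := w))]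
  have hFt : ∀ k s x u, 0 ≤ s → s ≤ 1 → Lip1 (2 * M + 2 * C2) (fun t => F k s t x u) := by
    intro k s x u hs hs1
    refine glue (1 / 2) ?_ ?_ ?_
    · intro a b
      refine (h.lv k x u _ _).trans ?_
      have h1 := clip_lip (2 * a) (2 * b)
      rw [show 2 * a - 2 * b = 2 * (a - b) by ring, abs_mul,
        abs_of_pos (by norm_num : (0 : ℝ) < 2)] at h1
      rw [show (1 + 2 * clip (2 * a)) * s - clip (2 * a) - ((1 + 2 * clip (2 * b)) * s -
        clip (2 * b)) = (2 * s - 1) * (clip (2 * a) - clip (2 * b)) by ring, abs_mul]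
      have h2 : |2 * s - 1| ≤ 1 := abs_le.2 ⟨by linarith, by linarith⟩
      calc M * (|2 * s - 1| * |clip (2 * a) - clip (2 * b)|) ≤ M * (1 * (2 * |a - b|)) := by
            gcongr
        _ ≤ (2 * M + 2 * C2) * |a - b| := by
            nlinarith [mul_nonneg hC2 (abs_nonneg (a - b))]
    · intro a b
      refine ((hH k).lt x (cns s (cv u)) _ _).trans ?_
      have h1 := clip_lip (2 * a - 1) (2 * b - 1)
      rw [show 2 * a - 1 - (2 * b - 1) = 2 * (a - b) by ring, abs_mul,
        abs_of_pos (by norm_num : (0 : ℝ) < 2)] at h1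
      calc C2 * |clip (2 * a - 1) - clip (2 * b - 1)| ≤ C2 * (2 * |a - b|) := by gcongr
        _ ≤ (2 * M + 2 * C2) * |a - b| := by nlinarith [mul_nonneg hM (abs_nonneg (a - b))]
    · rw [show (2 : ℝ) * (1 / 2) = 1 by norm_num, clip_one, sub_self, clip_zero]
      have hc : InCube (cns s (cv u)) := by
        intro i
        refine Fin.cases ?_ (fun i => ?_) i
        · rw [cns_zero]; exact ⟨hs, hs1⟩
        · rw [cns_succ]; exact cv_inCube u i
      rw [(hH k).start x _ hc]
      simp only [cont, cns_zero, tl_cns, clip_of_mem hs hs1]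
      rw [h.cl]
      congr 1; ring
  have hFm : ∀ k t x u, F k 1 t x u = F (k + 1) 0 t x u := by
    intro k t x u
    simp only [hF]
    have c0 := clip_nonneg (2 * t)
    split_ifs with h'
    · rw [show (1 + 2 * clip (2 * t)) * 1 - clip (2 * t) = 1 + clip (2 * t) by ring,
        show (1 + 2 * clip (2 * t)) * 0 - clip (2 * t) = -clip (2 * t) by ring, h.gl k _ x u c0]
    · rw [(hH k).bd _ _ _ ⟨0, Or.inr (cns_zero _ _)⟩, (hH (k + 1)).bd _ _ _ ⟨0, Or.inl (cns_zero _ _)⟩]
  refine ⟨fun t x u => F ⌊x 0⌋ (Int.fract (x 0)) t (tl x) u, ⟨?_, ?_, ?_, ?_, ?_⟩, ?_⟩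
  · intro t u x y
    have h1 : Lip1 (3 * M + C2) (fun v => F ⌊v⌋ (Int.fract v) t (tl x) u) :=
      glue_floor (f := fun k s => F k s t (tl x) u) (fun k => hFs k t (tl x) u)
        (fun k => hFm k t (tl x) u)
    have h2 := h1 (x 0) (y 0)
    have h3 := hFx ⌊y 0⌋ (Int.fract (y 0)) t u (tl x) (tl y)
    have h4 : |x 0 - y 0| ≤ dist x y := by
      rw [← Real.dist_eq]; exact dist_le_pi_dist x y 0
    have h5 := dist_tl_le x y
    calc dist (F ⌊x 0⌋ (Int.fract (x 0)) t (tl x) u) (F ⌊y 0⌋ (Int.fract (y 0)) t (tl y) u)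
        ≤ dist (F ⌊x 0⌋ (Int.fract (x 0)) t (tl x) u) (F ⌊y 0⌋ (Int.fract (y 0)) t (tl x) u) +
          dist (F ⌊y 0⌋ (Int.fract (y 0)) t (tl x) u) (F ⌊y 0⌋ (Int.fract (y 0)) t (tl y) u) :=
          dist_triangle _ _ _
      _ ≤ (3 * M + C2) * dist x y + (M + C2) * dist x y :=
          add_le_add (h2.trans (mul_le_mul_of_nonneg_left h4 (by positivity)))
            (h3.trans (mul_le_mul_of_nonneg_left h5 (by positivity)))
      _ = (4 * M + 2 * C2) * dist x y := by ring
  · intro t x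
    exact LipN.mono (hFu _ _ _ _) (by linarith)
  · intro x u
    exact Lip1.mono (hFt _ _ _ _ (Int.fract_nonneg _) (Int.fract_lt_one _).le) (by linarith)
  · intro t x u hb
    simp only [hF]
    split_ifs
    · exact h.bd _ _ _ _ hb
    · obtain ⟨i, hi⟩ := cv_bd hb
      exact (hH _).bd _ _ _ ⟨i.succ, hi⟩
  · intro x u hu
    simp only [hF]
    rw [if_pos (by norm_num), mul_zero, clip_zero, mul_zero, add_zero, one_mul, sub_zero,
      h.mid _ _ _ _ (Int.fract_nonneg _) (Int.fract_lt_one _).le hu, Int.floor_add_fract, cns_tl]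
  · intro x u
    simp only [hF]
    rw [if_neg (by norm_num), show (2 : ℝ) * 1 - 1 = 1 by norm_num, clip_one]

end Pool.Agent.H385R3.LN
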